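import Pool.Agent.H.MP_65bbe4_ag.Main

namespace Pool.Agent.Results.MP_65bbe4_ag.AllEquiv

open MvPowerSeries

/-- Contact equivalence of pairs in F[[x,y]]: g = U · φ(f) with U in GL(2,R), φ in Aut_F(R). -/
def ContactEquiv {F : Type*} [Field F] (f g : Fin 2 → MvPowerSeries (Fin 2) F) : Prop :=
  ∃ (U : GL (Fin 2) (MvPowerSeries (Fin 2) F))
    (φ : MvPowerSeries (Fin 2) F ≃ₐ[F] MvPowerSeries (Fin 2) F),
    g = (U : Matrix (Fin 2) (Fin 2) (MvPowerSeries (Fin 2) F)).mulVec (fun i => φ (f i))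

/-- The germ f_{a,b}, with x = X 0, y = X 1. -/
noncomputable def germ {F : Type*} [Field F] (p : ℕ) (l a b : F) :
    Fin 2 → MvPowerSeries (Fin 2) F :=
  ![X 0 ^ 2 + X 1 ^ 4,
    X 1 ^ 5 + C l * X 0 * X 1 ^ 3 + C a * X 0 * X 1 ^ (p + 3) + X 0 * X 1 ^ (p + 4) +
      C b * X 0 * X 1 ^ (2 * p + 3)]

theorem result (p : ℕ) (hp : p.Prime) (F : Type*) [Field F] [IsAlgClosed F] [CharP F p]
    (l : F) (hl : l ^ 2 = -1) :
    (∀ a b c d : F, a ≠ 0 → c ≠ 0 → ContactEquiv (germ p l a b) (germ p l c d)) ∧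
    ∀ S : Set (MvPolynomial (Fin 4) F),
      (∃ v : Fin 4 → F, ∃ P ∈ S, MvPolynomial.eval v P ≠ 0) →
      ∃ v : Fin 4 → F, (∃ P ∈ S, MvPolynomial.eval v P ≠ 0) ∧
        ContactEquiv (germ p l (v 0) (v 1)) (germ p l (v 2) (v 3)) := by
  have h1 : ∀ a b c d : F, a ≠ 0 → c ≠ 0 → ContactEquiv (germ p l a b) (germ p l c d) := by
    intro a b c d ha hc
    obtain ⟨U, φ, h⟩ := Pool.Agent.H.MP_65bbe4_ag.main p hp.two_le l a b c d hl ha hc
    refine ⟨U, φ, h.trans ?_⟩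
    congr 1
    funext i
    fin_cases i <;> rfl
  refine ⟨h1, ?_⟩
  rintro S ⟨v, P, hP, hv⟩
  have hP0 : P ≠ 0 := by
    rintro rfl
    simp at hv
  have hQ : P * MvPolynomial.X 0 * MvPolynomial.X 2 ≠ 0 :=
    mul_ne_zero (mul_ne_zero hP0 (MvPolynomial.X_ne_zero _)) (MvPolynomial.X_ne_zero _)
  obtain ⟨w, hw⟩ : ∃ w : Fin 4 → F,
      MvPolynomial.eval w (P * MvPolynomial.X 0 * MvPolynomial.X 2) ≠ 0 := by
    by_contra hcon
    push Not at hcon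
    exact hQ (MvPolynomial.funext (by simpa using hcon))
  simp only [map_mul, MvPolynomial.eval_X, ne_eq, mul_eq_zero, not_or] at hw
  exact ⟨w, ⟨P, hP, hw.1.1⟩, h1 _ _ _ _ hw.1.2 hw.2⟩

end Pool.Agent.Results.MP_65bbe4_ag.AllEquiv
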